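import Pool.Agent.Y631.WcB
import Pool.Agent.J6H29.FE.Final

/-!
# Word circuits of small treewidth with few reads and the trilinear form
-/

set_option autoImplicit false

open Finset

namespace Pool.Agent.J6H29.TW

open Pool.Agent.J6H29.FE Pool.Agent.Y631.Wc

/-- The sum of the signs over a class. -/
theorem class_sum {N : ℕ} {Z : Type} (C : WCirc (Fin N) Bool Z)
    {B : Finset (Fin C.size)} {A E : Finset (Fin N)} {μ : ℕ}
    (hA : A ⊆ univ.image (pos N).ξ) (hE : E ⊆ univ.image (pos N).η)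
    (hAc : 2 * μ + 1 ≤ A.card) (hEc : 2 * μ + 1 ≤ E.card) (c : {g // g ∈ C.plus B} → Z)
    (hmix : ∀ (x x' y : Fin N → Bool), x ∈ C.Cls B c → x' ∈ C.Cls B c →
          (∀ i, i ∉ A → i ∉ E → x i = x' i) → (∀ i, i ∈ A → y i = x i) →
          (∀ i, i ∉ A → y i = x' i) → y ∈ C.Cls B c)
    [DecidablePred (fun z => z ∈ C.Cls B c)] :
    |∑ z : Fin N → Bool, (if z ∈ C.Cls B c then 1 else 0) * (pos N).chi z| * 2 ^ μ ≤ 2 ^ N := by
  classical
  have hAE : ∀ i, i ∈ A → i ∉ E := by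
    intro i hi hi'
    obtain ⟨a, _, ha⟩ := mem_image.1 (hA hi)
    obtain ⟨b, _, hb⟩ := mem_image.1 (hE hi')
    exact (pos N).hξη a b (ha.trans hb.symm)
  obtain ⟨R, hR⟩ : ∃ R : Finset (Fin (N / 4)), R = univ.filter (fun i => (pos N).ξ i ∈ A) :=
    ⟨_, rfl⟩
  obtain ⟨S, hS⟩ : ∃ S : Finset (Fin (N / 4)), S = univ.filter (fun i => (pos N).η i ∈ E) :=
    ⟨_, rfl⟩
  have hRA : R.image (pos N).ξ = A := by
    ext i
    rw [mem_image]
    constructor
    · rintro ⟨a, ha, rfl⟩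
      rw [hR, mem_filter] at ha
      exact ha.2
    · intro hi
      obtain ⟨a, _, ha⟩ := mem_image.1 (hA hi)
      exact ⟨a, by rw [hR, mem_filter]; exact ⟨mem_univ _, by rw [ha]; exact hi⟩, ha⟩
  have hSE : S.image (pos N).η = E := by
    ext i
    rw [mem_image]
    constructor
    · rintro ⟨a, ha, rfl⟩
      rw [hS, mem_filter] at ha
      exact ha.2
    · intro hi
      obtain ⟨a, _, ha⟩ := mem_image.1 (hE hi)
      exact ⟨a, by rw [hS, mem_filter]; exact ⟨mem_univ _, by rw [ha]; exact hi⟩, ha⟩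
  have hRc : 2 * μ + 1 ≤ R.card := by
    rw [← hRA, card_image_of_injective _ (pos N).hξ] at hAc
    exact hAc
  have hSc : 2 * μ + 1 ≤ S.card := by
    rw [← hSE, card_image_of_injective _ (pos N).hη] at hEc
    exact hEc
  obtain ⟨G, hG⟩ : ∃ G : (Fin N → Bool) → ℝ, ∀ z, G z =
    if ∃ z', (∀ i, i ∉ E → z' i = z i) ∧ z' ∈ C.Cls B c then 1 else 0 := ⟨_, fun _ => rfl⟩
  obtain ⟨H, hH⟩ : ∃ H : (Fin N → Bool) → ℝ, ∀ z, H z =
    if ∃ z', (∀ i, i ∉ A → z' i = z i) ∧ z' ∈ C.Cls B c then 1 else 0 := ⟨_, fun _ => rfl⟩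
  have key := disc_sets (pos N) (e₀ := id) (f₀ := id) (fun _ _ h => h) (fun _ _ h => h) R S
    hRc hSc G H (by intro z; rw [hG]; split_ifs <;> simp)
    (by intro z; rw [hH]; split_ifs <;> simp)
    (by
      intro z z' hz
      have h1 : ∀ i, i ∉ E → z i = z' i := by
        intro i hi
        apply hz
        intro a ha h
        rw [hS, mem_filter] at ha
        rw [← h] at hi
        exact hi ha.2
      rw [hG, hG]
      congr 1
      apply propext
      constructor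
      · rintro ⟨w, hw1, hw2⟩
        exact ⟨w, fun i hi => (hw1 i hi).trans (h1 i hi), hw2⟩
      · rintro ⟨w, hw1, hw2⟩
        exact ⟨w, fun i hi => (hw1 i hi).trans (h1 i hi).symm, hw2⟩)
    (by
      intro z z' hz
      have h1 : ∀ i, i ∉ A → z i = z' i := by
        intro i hi
        apply hz
        intro a ha h
        rw [hR, mem_filter] at ha
        rw [← h] at hi
        exact hi ha.2
      rw [hH, hH]
      congr 1
      apply propext
      constructor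
      · rintro ⟨w, hw1, hw2⟩
        exact ⟨w, fun i hi => (hw1 i hi).trans (h1 i hi), hw2⟩
      · rintro ⟨w, hw1, hw2⟩
        exact ⟨w, fun i hi => (hw1 i hi).trans (h1 i hi).symm, hw2⟩)
  rw [Fintype.card_fin] at key
  have h2 : ∀ z, (if z ∈ C.Cls B c then (1 : ℝ) else 0) = G z * H z := by
    intro z
    rw [hG, hH]
    by_cases hz : z ∈ C.Cls B c
    · rw [if_pos hz, if_pos ⟨z, fun _ _ => rfl, hz⟩, if_pos ⟨z, fun _ _ => rfl, hz⟩, one_mul]
    · rw [if_neg hz]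
      by_cases h3 : ∃ z', (∀ i, i ∉ E → z' i = z i) ∧ z' ∈ C.Cls B c
      · have h4 : ¬ ∃ z', (∀ i, i ∉ A → z' i = z i) ∧ z' ∈ C.Cls B c := by
          rintro ⟨w, hw1, hw2⟩
          obtain ⟨w', hw'1, hw'2⟩ := h3
          apply hz
          exact hmix w' w z hw'2 hw2 (fun i hi hi' => (hw'1 i hi').trans (hw1 i hi).symm)
            (fun i hi => (hw'1 i (hAE i hi)).symm) (fun i hi => (hw1 i hi).symm)
        rw [if_neg h4, mul_zero]
      · rw [if_neg h3, zero_mul]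
  simp_rw [h2]
  exact key

/-- The numbers of the theorem. -/
def KK (r κ θ : ℕ) : ℕ := 90000 * r ^ 2 * (κ + 1) * (θ + 1)

/-- The cut of the circuit. -/
theorem cut {N r κ θ μ q : ℕ} {Z : Type} [Fintype Z] (C : WCirc (Fin N) Bool Z) (hr : 1 ≤ r)
    (hκ : C.FanIn κ) (hθ : C.TreewidthLE θ) (hR : C.reads ≤ r * N)
    (hμ : μ = N / 4 / 4 ^ (36 * r + 1)) (hμ1 : 1 ≤ μ) (hq : 2 ≤ q) (hZ : Fintype.card Z ≤ q) :
    2 ^ μ ≤ q ^ KK r κ θ ∨ ∃ (B : Finset (Fin C.size)),
      Fintype.card ({g // g ∈ C.plus B} → Z) ≤ q ^ KK r κ θ ∧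
      ∀ (c : {g // g ∈ C.plus B} → Z) [DecidablePred (fun z => z ∈ C.Cls B c)],
        |∑ z : Fin N → Bool, (if z ∈ C.Cls B c then 1 else 0) * (pos N).chi z| * 2 ^ μ ≤
          2 ^ N := by
  classical
  have hpow : 4 ^ (36 * r + 1) * μ ≤ N / 4 := by rw [hμ]; exact Nat.mul_div_le _ _
  have h72 : 72 * r ≤ 4 ^ (36 * r + 1) := by
    have h1 : 36 * r + 1 < 2 ^ (36 * r + 1) := Nat.lt_two_pow_self
    have h2 : 2 ^ (36 * r + 1) * 2 ^ (36 * r + 1) = 4 ^ (36 * r + 1) := by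
      rw [← mul_pow]; norm_num
    nlinarith
  have h73 : 4 ^ (36 * r + 1) * 1 ≤ 4 ^ (36 * r + 1) * μ := Nat.mul_le_mul_left _ hμ1
  have hM : 24 * (3 * r) ≤ N / 4 := by omega
  have hN7 : N ≤ 7 * (N / 4) := by omega
  have hcore := C.core (κ := κ) (θ := θ) (M := N / 4) (m := 3 * (N / 4)) (r := 3 * r)
    (K := KK r κ θ) (by omega) hκ hθ (by
      calc C.reads ≤ r * N := hR
        _ ≤ r * (7 * (N / 4)) := Nat.mul_le_mul_left _ hN7
        _ ≤ r * (9 * (N / 4)) := by gcongr; norm_num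
        _ = _ := by ring) (univ.image (pos N).ξ) (univ.image (pos N).η)
    (by rw [card_image_of_injective _ (pos N).hξ, card_univ, Fintype.card_fin])
    (by rw [card_image_of_injective _ (pos N).hη, card_univ, Fintype.card_fin]) le_rfl hM
    (by unfold KK; ring)
  rcases hcore with h | ⟨B, A, E, hA, hE, hAc, hEc, hB, hmix⟩
  · left
    have hμK : μ ≤ KK r κ θ := by
      refine le_trans ?_ h
      refine le_trans ?_ hpow
      exact Nat.le_mul_of_pos_left _ (by positivity)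
    exact (Nat.pow_le_pow_right (by norm_num) hμK).trans (Nat.pow_le_pow_left hq _)
  · right
    refine ⟨B, ?_, ?_⟩
    · rw [Fintype.card_fun, Fintype.card_coe]
      exact (Nat.pow_le_pow_left hZ _).trans (Nat.pow_le_pow_right (by omega) hB)
    · intro c _
      have h36 : 4 ^ (12 * (3 * r)) * (2 * μ + 1) ≤ N / 4 := by
        calc 4 ^ (12 * (3 * r)) * (2 * μ + 1) ≤ 4 ^ (12 * (3 * r)) * (4 * μ) :=
              Nat.mul_le_mul_left _ (by omega)
          _ = 4 ^ (36 * r + 1) * μ := by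
              rw [pow_succ]; ring_nf
          _ ≤ _ := hpow
      have hpos : 0 < 4 ^ (12 * (3 * r)) := Nat.pow_pos (by norm_num)
      exact class_sum C hA hE (Nat.le_of_mul_le_mul_left (h36.trans hAc) hpos)
        (Nat.le_of_mul_le_mul_left (h36.trans hEc) hpos) c (fun x x' y => hmix c x x' y)

/-- **Nondeterministic circuits.** -/
theorem nondet {N r κ θ q : ℕ} {Z : Type} [Fintype Z] (C : WCirc (Fin N) Bool Z) (hr : 1 ≤ r)
    (hκ : C.FanIn κ) (hθ : C.TreewidthLE θ) (hR : C.reads ≤ r * N)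
    (hq : 2 ≤ q) (hZ : Fintype.card Z ≤ q) (s : Bool)
    (hC : ∀ z, C.Accepts z → (List.ofFn z ∈ L ↔ s = true)) :
    Nat.card {z // C.Accepts z} * 2 ^ (N / 4 / 4 ^ (36 * r + 1)) ≤ q ^ KK r κ θ * 2 ^ N := by
  classical
  obtain ⟨μ, hμ⟩ : ∃ μ, μ = N / 4 / 4 ^ (36 * r + 1) := ⟨_, rfl⟩
  rw [← hμ]
  have htriv : Nat.card {z // C.Accepts z} ≤ 2 ^ N := by
    rw [Nat.card_eq_fintype_card]
    refine (Fintype.card_subtype_le _).trans ?_
    simp
  rcases Nat.eq_zero_or_pos μ with h0 | hμ1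
  · rw [h0, pow_zero, mul_one]
    calc Nat.card {z // C.Accepts z} ≤ 2 ^ N := htriv
      _ = 1 * 2 ^ N := (one_mul _).symm
      _ ≤ _ := Nat.mul_le_mul_right _ (Nat.one_le_pow _ _ (by omega))
  rcases cut C hr hκ hθ hR hμ hμ1 hq hZ with h | ⟨B, hB, hcls⟩
  · calc Nat.card {z // C.Accepts z} * 2 ^ μ ≤ 2 ^ N * q ^ KK r κ θ := Nat.mul_le_mul htriv h
      _ = _ := Nat.mul_comm _ _
  obtain ⟨σ, hσ, hσs⟩ := exists_sign N s
  have hσ1 : |σ| = 1 := by rcases hσ with h | h <;> rw [h] <;> norm_num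
  have hcard : ∀ c : {g // g ∈ C.plus B} → Z,
      ((univ.filter (fun z => z ∈ C.Cls B c)).card : ℝ) * 2 ^ μ ≤ 2 ^ N := by
    intro c
    have h1 := hcls c
    have h2 : ∑ z : Fin N → Bool, (if z ∈ C.Cls B c then (1 : ℝ) else 0) * (pos N).chi z =
        σ * ((univ.filter (fun z => z ∈ C.Cls B c)).card : ℝ) := by
      rw [card_filter]
      push_cast
      rw [mul_sum]
      refine sum_congr rfl (fun z _ => ?_)
      by_cases hz : z ∈ C.Cls B c
      · have h3 : C.Accepts z := by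
          obtain ⟨v, hv, ho, _⟩ := hz
          exact ⟨v, hv, ho⟩
        rw [if_pos hz, (hσs z).2 (hC z h3)]; ring
      · rw [if_neg hz]; ring
    rw [h2, abs_mul, hσ1, one_mul, abs_of_nonneg (by positivity)] at h1
    exact h1
  have hsub : (univ.filter (fun z => C.Accepts z)) ⊆
      univ.biUnion (fun c : {g // g ∈ C.plus B} → Z => univ.filter (fun z => z ∈ C.Cls B c)) := by
    intro z hz
    obtain ⟨v, hv, ho⟩ := (mem_filter.1 hz).2
    rw [mem_biUnion]
    exact ⟨fun g => v g.1, mem_univ _, mem_filter.2 ⟨mem_univ _, v, hv, ho, fun _ => rfl⟩⟩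
  have h1 : ((univ.filter (fun z => C.Accepts z)).card : ℝ) * 2 ^ μ ≤
      (q : ℝ) ^ KK r κ θ * 2 ^ N := by
    calc _ ≤ (∑ c : {g // g ∈ C.plus B} → Z,
            ((univ.filter (fun z => z ∈ C.Cls B c)).card : ℝ)) * 2 ^ μ := by
          apply mul_le_mul_of_nonneg_right _ (by positivity)
          exact_mod_cast (card_le_card hsub).trans card_biUnion_le
      _ = ∑ c : {g // g ∈ C.plus B} → Z,
            ((univ.filter (fun z => z ∈ C.Cls B c)).card : ℝ) * 2 ^ μ := by rw [sum_mul]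
      _ ≤ ∑ _c : {g // g ∈ C.plus B} → Z, (2 : ℝ) ^ N := sum_le_sum (fun c _ => hcard c)
      _ = (Fintype.card ({g // g ∈ C.plus B} → Z) : ℝ) * 2 ^ N := by
          rw [sum_const, card_univ, nsmul_eq_mul]
      _ ≤ _ := by
          apply mul_le_mul_of_nonneg_right _ (by positivity)
          exact_mod_cast hB
  rw [Nat.card_eq_fintype_card, Fintype.card_subtype]
  exact_mod_cast h1

/-- **Unambiguous circuits.** -/
theorem unamb {N r κ θ q : ℕ} {Z : Type} [Fintype Z] (C : WCirc (Fin N) Bool Z) (hr : 1 ≤ r)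
    (hκ : C.FanIn κ) (hθ : C.TreewidthLE θ) (hR : C.reads ≤ r * N)
    (hq : 2 ≤ q) (hZ : Fintype.card Z ≤ q) (hU : C.Unambiguous) :
    |2 * (Nat.card {z // C.Accepts z ↔ List.ofFn z ∈ L} : ℝ) - 2 ^ N| *
      2 ^ (N / 4 / 4 ^ (36 * r + 1)) ≤ 3 * q ^ KK r κ θ * 2 ^ N := by
  classical
  obtain ⟨μ, hμ⟩ : ∃ μ, μ = N / 4 / 4 ^ (36 * r + 1) := ⟨_, rfl⟩
  rw [← hμ]
  obtain ⟨D, hD⟩ : ∃ D : ℝ, D = 2 * (Nat.card {z // C.Accepts z ↔ List.ofFn z ∈ L} : ℝ) - 2 ^ N :=
    ⟨_, rfl⟩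
  rw [← hD]
  have hq0 : (1 : ℝ) ≤ (q : ℝ) ^ KK r κ θ := by
    exact_mod_cast Nat.one_le_pow _ _ (by omega : 0 < q)
  -- the difference as a sum
  have hsum : D = ∑ z : Fin N → Bool, (if C.Accepts z then 1 else -1) * (- (pos N).chi z) := by
    rw [hD, Nat.card_eq_fintype_card, Fintype.card_subtype, card_filter]
    push_cast
    have h1 : (2 : ℝ) ^ N = ∑ _z : Fin N → Bool, (1 : ℝ) := by simp
    rw [h1, mul_sum, ← sum_sub_distrib]
    refine sum_congr rfl (fun z _ => ?_)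
    rw [chi_eq]
    by_cases h2 : C.Accepts z <;> by_cases h3 : List.ofFn z ∈ L <;> simp [h2, h3] <;> norm_num
  have htriv : |D| ≤ 2 ^ N := by
    rw [hsum]
    refine (abs_sum_le_sum_abs _ _).trans ?_
    calc _ ≤ ∑ _z : Fin N → Bool, (1 : ℝ) := by
          refine sum_le_sum (fun z _ => ?_)
          rw [abs_mul, abs_neg, Pos.chi_abs, mul_one]
          split_ifs <;> simp
      _ = 2 ^ N := by simp
  have hDfin : |D| ≤ 3 * (q : ℝ) ^ KK r κ θ * 2 ^ N := by
    have : (1 : ℝ) * 2 ^ N ≤ (3 * (q : ℝ) ^ KK r κ θ) * 2 ^ N := by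
      apply mul_le_mul_of_nonneg_right _ (by positivity)
      linarith
    linarith
  rcases Nat.eq_zero_or_pos μ with h0 | hμ1
  · rw [h0, pow_zero, mul_one]
    exact hDfin
  rcases cut C hr hκ hθ hR hμ hμ1 hq hZ with h | ⟨B, hB, hcls⟩
  · have h' : (2 : ℝ) ^ μ ≤ (q : ℝ) ^ KK r κ θ := by exact_mod_cast h
    calc |D| * 2 ^ μ ≤ 2 ^ N * (q : ℝ) ^ KK r κ θ :=
          mul_le_mul htriv h' (by positivity) (by positivity)
      _ ≤ 3 * (q : ℝ) ^ KK r κ θ * 2 ^ N := by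
          have : 0 ≤ (q : ℝ) ^ KK r κ θ * 2 ^ N := by positivity
          linarith
  -- the accepted inputs
  have hacc : ∀ z, (if C.Accepts z then (1 : ℝ) else 0) =
      ∑ c : {g // g ∈ C.plus B} → Z, if z ∈ C.Cls B c then 1 else 0 := by
    intro z
    by_cases hz : C.Accepts z
    · obtain ⟨v, hv, ho⟩ := hz
      rw [if_pos ⟨v, hv, ho⟩, sum_eq_single (fun g => v g.1)]
      · rw [if_pos ⟨v, hv, ho, fun _ => rfl⟩]
      · intro c _ hc
        rw [if_neg]
        rintro ⟨v', hv', ho', hc'⟩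
        apply hc
        funext g
        rw [← hc' g, hU z v v' hv ho hv' ho']
      · intro h; exact absurd (mem_univ _) h
    · rw [if_neg hz]
      symm
      apply sum_eq_zero
      intro c _
      rw [if_neg]
      rintro ⟨v, hv, ho, _⟩
      exact hz ⟨v, hv, ho⟩
  obtain ⟨S, hS⟩ : ∃ S : ℝ, S = ∑ z : Fin N → Bool,
      (if C.Accepts z then 1 else 0) * (pos N).chi z := ⟨_, rfl⟩
  have hSb : |S| * 2 ^ μ ≤ (q : ℝ) ^ KK r κ θ * 2 ^ N := by
    have h1 : S = ∑ c : {g // g ∈ C.plus B} → Z, ∑ z : Fin N → Bool,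
        (if z ∈ C.Cls B c then 1 else 0) * (pos N).chi z := by
      rw [hS, sum_comm]
      refine sum_congr rfl (fun z _ => ?_)
      rw [hacc z, sum_mul]
    calc |S| * 2 ^ μ ≤ (∑ c : {g // g ∈ C.plus B} → Z, |∑ z : Fin N → Bool,
          (if z ∈ C.Cls B c then 1 else 0) * (pos N).chi z|) * 2 ^ μ := by
          rw [h1]
          exact mul_le_mul_of_nonneg_right (abs_sum_le_sum_abs _ _) (by positivity)
      _ = ∑ c : {g // g ∈ C.plus B} → Z, |∑ z : Fin N → Bool,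
          (if z ∈ C.Cls B c then 1 else 0) * (pos N).chi z| * 2 ^ μ := by rw [sum_mul]
      _ ≤ ∑ _c : {g // g ∈ C.plus B} → Z, (2 : ℝ) ^ N := sum_le_sum (fun c _ => hcls c)
      _ = (Fintype.card ({g // g ∈ C.plus B} → Z) : ℝ) * 2 ^ N := by
          rw [sum_const, card_univ, nsmul_eq_mul]
      _ ≤ _ := by
          apply mul_le_mul_of_nonneg_right _ (by positivity)
          exact_mod_cast hB
  have hall : |∑ z : Fin N → Bool, (pos N).chi z| * 2 ^ μ ≤ 2 ^ N := by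
    have hpow : 4 ^ (36 * r + 1) * μ ≤ N / 4 := by rw [hμ]; exact Nat.mul_div_le _ _
    have h4 : 4 ≤ 4 ^ (36 * r + 1) := by
      calc 4 = 4 ^ 1 := by norm_num
        _ ≤ _ := Nat.pow_le_pow_right (by norm_num) (by omega)
    have h5 : 4 * μ ≤ 4 ^ (36 * r + 1) * μ := Nat.mul_le_mul_right _ h4
    have key := disc_sets (μ := μ) (pos N) (e₀ := id) (f₀ := id) (fun _ _ h => h)
      (fun _ _ h => h) univ univ (by simp; omega) (by simp; omega) (fun _ => 1) (fun _ => 1)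
      (by simp) (by simp) (by simp) (by simp)
    simpa using key
  have hDS : D = (∑ z : Fin N → Bool, (pos N).chi z) - 2 * S := by
    rw [hsum, hS, mul_sum, ← sum_sub_distrib]
    refine sum_congr rfl (fun z _ => ?_)
    by_cases h2 : C.Accepts z <;> simp [h2]
    ring
  calc |D| * 2 ^ μ ≤ (|∑ z : Fin N → Bool, (pos N).chi z| + 2 * |S|) * 2 ^ μ := by
        apply mul_le_mul_of_nonneg_right _ (by positivity)
        rw [hDS]
        refine (abs_sub _ _).trans ?_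
        rw [abs_mul]
        norm_num
    _ = |∑ z : Fin N → Bool, (pos N).chi z| * 2 ^ μ + 2 * (|S| * 2 ^ μ) := by ring
    _ ≤ 2 ^ N + 2 * ((q : ℝ) ^ KK r κ θ * 2 ^ N) := by linarith
    _ ≤ 3 * (q : ℝ) ^ KK r κ θ * 2 ^ N := by
        have : (1 : ℝ) * 2 ^ N ≤ (q : ℝ) ^ KK r κ θ * 2 ^ N :=
          mul_le_mul_of_nonneg_right hq0 (by positivity)
        linarith

end Pool.Agent.J6H29.TW
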