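import Pool.Agent.J6H29.TW.Core

/-!
# Word circuits of linear treewidth with linearly many reads
-/

set_option autoImplicit false

namespace Pool.Agent.J6H29.TW

open Pool.Agent.J6H29.FE Pool.Agent.Y631.Wc

/-- From the explicit bound to the bound with `ε`. -/
theorem lin_power {N A B K μ : ℕ} {ε X : ℝ} (hB : 0 < B) (hε : ε = 1 / (2 * B * (A + 1)))
    (hN : 6 * B ≤ N) (hK : (K : ℝ) ≤ A * (ε * N)) (hμ : (N : ℝ) / B - 1 ≤ (μ : ℕ))
    (hX : X * 2 ^ μ ≤ 3 * 2 ^ K * 2 ^ N) : X ≤ (2 : ℝ) ^ ((1 - ε) * N) := by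
  have hBR : (0 : ℝ) < B := by exact_mod_cast hB
  have hA0 : (0 : ℝ) < (A : ℝ) + 1 := by positivity
  have hN' : (6 : ℝ) * B ≤ N := by exact_mod_cast hN
  have h1 : (A + 1) * (ε * N) = N / (2 * B) := by
    rw [hε]; field_simp
  have h2 : (3 : ℝ) ≤ N / (2 * B) := by
    rw [le_div_iff₀ (by positivity)]; linarith
  have h3 : (N : ℝ) / B = 2 * (N / (2 * B)) := by field_simp
  have h4 : 2 + (K : ℝ) + ε * N ≤ (μ : ℕ) := by
    have : A * (ε * N) + ε * N = N / (2 * B) := by rw [← h1]; ring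
    linarith
  have h5 : (3 : ℝ) * 2 ^ K * 2 ^ N ≤ (2 : ℝ) ^ ((1 - ε) * N) * 2 ^ μ := by
    calc (3 : ℝ) * 2 ^ K * 2 ^ N ≤ (2 : ℝ) ^ (2 : ℝ) * (2 : ℝ) ^ (K : ℝ) * (2 : ℝ) ^ (N : ℝ) := by
          rw [Real.rpow_natCast, Real.rpow_natCast]
          apply mul_le_mul_of_nonneg_right _ (by positivity)
          apply mul_le_mul_of_nonneg_right _ (by positivity)
          norm_num
      _ = (2 : ℝ) ^ (2 + (K : ℝ) + N) := by
          rw [← Real.rpow_add (by norm_num), ← Real.rpow_add (by norm_num)]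
      _ ≤ (2 : ℝ) ^ ((1 - ε) * N + μ) :=
          Real.rpow_le_rpow_of_exponent_le (by norm_num) (by linarith)
      _ = _ := by rw [Real.rpow_add (by norm_num), Real.rpow_natCast]
  exact le_of_mul_le_mul_right (hX.trans h5) (by positivity)

/-- **Linear treewidth.** -/
theorem lin (r κ : ℕ) : ∃ ε : ℝ, 0 < ε ∧ ∃ N₀ : ℕ, ∀ N ≥ N₀,
    ∀ (Z : Type) [Fintype Z] (C : WCirc (Fin N) Bool Z) (w θ : ℕ), 1 ≤ w →
      Fintype.card Z ≤ 2 ^ w → C.FanIn κ → C.TreewidthLE θ → C.reads ≤ r * N →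
      (w : ℝ) * (θ + 1) ≤ ε * N →
      (∀ s : Bool, (∀ z, C.Accepts z → (List.ofFn z ∈ L ↔ s = true)) →
        (Nat.card {z // C.Accepts z} : ℝ) ≤ (2 : ℝ) ^ ((1 - ε) * N)) ∧
      (C.Unambiguous → |2 * (Nat.card {z // C.Accepts z ↔ List.ofFn z ∈ L} : ℝ) - 2 ^ N| ≤
        (2 : ℝ) ^ ((1 - ε) * N)) := by
  obtain ⟨A, hA⟩ : ∃ A : ℕ, A = 90000 * (r + 1) ^ 2 * (κ + 1) := ⟨_, rfl⟩
  obtain ⟨B, hB⟩ : ∃ B : ℕ, B = 4 * 4 ^ (36 * (r + 1) + 1) := ⟨_, rfl⟩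
  have hB0 : 0 < B := by rw [hB]; exact Nat.mul_pos (by norm_num) (Nat.pow_pos (by norm_num))
  have hBR : (0 : ℝ) < B := by exact_mod_cast hB0
  have hA0 : (0 : ℝ) ≤ A := Nat.cast_nonneg A
  have hpos : (0 : ℝ) < 2 * B * (A + 1) :=
    mul_pos (mul_pos two_pos hBR) (by linarith)
  refine ⟨1 / (2 * B * (A + 1)), div_pos one_pos hpos, 6 * B, ?_⟩
  intro N hN Z _ C w θ hw hZ hκ hθ hR hwθ
  have hq : 2 ≤ 2 ^ w := by
    calc 2 = 2 ^ 1 := by norm_num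
      _ ≤ 2 ^ w := Nat.pow_le_pow_right (by norm_num) hw
  have hR' : C.reads ≤ (r + 1) * N := hR.trans (Nat.mul_le_mul_right _ (by omega))
  have hKK : KK (r + 1) κ θ = A * (θ + 1) := by unfold KK; rw [hA]
  have hK : ((w * KK (r + 1) κ θ : ℕ) : ℝ) ≤ A * (1 / (2 * B * (A + 1)) * N) := by
    rw [hKK]
    push_cast
    calc (w : ℝ) * (A * (θ + 1)) = A * (w * (θ + 1)) := by ring
      _ ≤ _ := mul_le_mul_of_nonneg_left hwθ hA0
  obtain ⟨μ, hμ⟩ : ∃ μ, μ = N / 4 / 4 ^ (36 * (r + 1) + 1) := ⟨_, rfl⟩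
  have hμ1 : (N : ℝ) / B - 1 ≤ (μ : ℕ) := by
    have h1 : N < (N / B + 1) * B := by
      have := Nat.lt_div_mul_add (a := N) (b := B) hB0
      rw [add_mul, one_mul]
      exact this
    have h2 : μ = N / B := by rw [hμ, hB, Nat.div_div_eq_div_mul]
    have h3 : (N : ℝ) < ((N / B : ℕ) + 1) * B := by exact_mod_cast h1
    have h4 : (N : ℝ) / B < (N / B : ℕ) + 1 := by rw [div_lt_iff₀ hBR]; exact h3
    rw [h2]
    linarith
  have hpow : ((2 ^ w : ℕ) : ℝ) ^ KK (r + 1) κ θ = 2 ^ (w * KK (r + 1) κ θ) := by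
    push_cast
    rw [← pow_mul]
  refine ⟨fun s hs => ?_, fun hU => ?_⟩
  · have h1 := nondet C (by omega : 1 ≤ r + 1) hκ hθ hR' hq hZ s hs
    rw [← hμ] at h1
    refine lin_power hB0 rfl hN hK hμ1 ?_
    have h2 : (Nat.card {z // C.Accepts z} : ℝ) * 2 ^ μ ≤
        ((2 ^ w : ℕ) : ℝ) ^ KK (r + 1) κ θ * 2 ^ N := by exact_mod_cast h1
    rw [hpow] at h2
    refine h2.trans ?_
    have : (0 : ℝ) ≤ 2 ^ (w * KK (r + 1) κ θ) * 2 ^ N :=
      mul_nonneg (pow_nonneg (by norm_num) _) (pow_nonneg (by norm_num) _)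
    linarith
  · have h1 := unamb C (by omega : 1 ≤ r + 1) hκ hθ hR' hq hZ hU
    rw [← hμ, hpow] at h1
    exact lin_power hB0 rfl hN hK hμ1 h1

end Pool.Agent.J6H29.TW
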