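import Pool.Agent.J6H29.TW.Core

/-!
# Word circuits of small treewidth with few reads: asymptotic form
-/

set_option autoImplicit false

open Filter

namespace Pool.Agent.J6H29.TW

open Pool.Agent.J6H29.FE Pool.Agent.Y631.Wc

theorem numeric (c κ : ℕ) (ε : ℝ) (hε : 0 < ε) (hε1 : ε ≤ 1) : ∃ N₀ : ℕ, 2 ≤ N₀ ∧ ∀ N ≥ N₀,
    ∀ r θ : ℕ, (r : ℝ) ≤ ε / 300 * Real.logb 2 N + 2 → (θ : ℝ) ≤ (N : ℝ) ^ (1 - ε) →
      Real.logb 2 N * (c + 1) * (KK r κ θ : ℕ) + 2 + (N : ℝ) ^ (1 - ε / 2) ≤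
        ((N / 4 / 4 ^ (36 * r + 1) : ℕ) : ℝ) := by
  obtain ⟨D, hD⟩ : ∃ D : ℝ, D = 24 / ε + 2 := ⟨_, rfl⟩
  have hDpos : 0 < D := by rw [hD]; positivity
  obtain ⟨W, hW⟩ : ∃ W : ℝ, W = 2 ^ 148 * (180000 * (c + 1) * (κ + 1) * D ^ 3 + 4) := ⟨_, rfl⟩
  have htend : Tendsto (fun m : ℕ => (m : ℝ) ^ (ε / 4)) atTop atTop :=
    (tendsto_rpow_atTop (by positivity)).comp tendsto_natCast_atTop_atTop
  obtain ⟨m₀, hm₀⟩ := (htend.eventually_gt_atTop W).exists_forall_of_atTop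
  refine ⟨max m₀ 2, le_max_right _ _, fun m hm r θ hr hθ => ?_⟩
  have hP := hm₀ m (le_trans (le_max_left _ _) hm)
  have hm2 : (2 : ℝ) ≤ m := by exact_mod_cast le_trans (le_max_right _ _) hm
  obtain ⟨x, hx⟩ : ∃ x : ℝ, x = m := ⟨_, rfl⟩
  rw [← hx] at hP hm2 hθ hr ⊢
  obtain ⟨P, hPd⟩ : ∃ P : ℝ, P = x ^ (ε / 4) := ⟨_, rfl⟩
  rw [← hPd] at hP
  have hx0 : (0 : ℝ) < x := by linarith
  have hx1 : (1 : ℝ) ≤ x := by linarith
  obtain ⟨y, hy⟩ : ∃ y : ℝ, y = x ^ (ε / 12) := ⟨_, rfl⟩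
  have hy1 : (1 : ℝ) ≤ y := by rw [hy]; exact Real.one_le_rpow hx1 (by positivity)
  have hP1 : (1 : ℝ) ≤ P := by rw [hPd]; exact Real.one_le_rpow hx1 (by positivity)
  have hyy : y ^ 3 = P := by
    rw [hPd, hy, ← Real.rpow_natCast, ← Real.rpow_mul hx0.le]
    congr 1
    push_cast
    ring
  have hlog2 : (1 / 2 : ℝ) < Real.log 2 := by
    have := Real.log_two_gt_d9
    linarith
  have hlogx : 0 ≤ Real.log x := Real.log_nonneg hx1
  have hlogb0 : 0 ≤ Real.logb 2 x := Real.logb_nonneg (by norm_num) hx1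
  obtain ⟨l, hl⟩ : ∃ l : ℝ, l = Real.logb 2 x := ⟨_, rfl⟩
  have hlogb : Real.logb 2 x ≤ 24 / ε * y := by
    have h1 := Real.log_le_rpow_div hx0.le (show (0 : ℝ) < ε / 12 by positivity)
    have h2 : Real.logb 2 x ≤ 2 * Real.log x := by
      rw [Real.logb, div_le_iff₀ (by linarith)]
      nlinarith
    calc Real.logb 2 x ≤ 2 * Real.log x := h2
      _ ≤ 2 * (x ^ (ε / 12) / (ε / 12)) := by linarith
      _ = _ := by rw [← hy]; field_simp; ring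
  rw [← hl] at hlogb hlogb0 hr ⊢
  have hlD : l + 2 ≤ D * y := by rw [hD, add_mul]; linarith
  have hrl : (r : ℝ) ≤ l + 2 := by
    have : ε / 300 * l ≤ 1 * l := by
      apply mul_le_mul_of_nonneg_right _ hlogb0
      linarith
    linarith
  have hrD : (r : ℝ) ≤ D * y := hrl.trans hlD
  have hlD' : l ≤ D * y := by linarith
  have hx1e : (1 : ℝ) ≤ x ^ (1 - ε) := Real.one_le_rpow hx1 (by linarith)
  have hθ2 : (θ : ℝ) + 1 ≤ 2 * x ^ (1 - ε) := by linarith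
  obtain ⟨A, hA⟩ : ∃ A : ℝ, A = x ^ (1 - ε) := ⟨_, rfl⟩
  rw [← hA] at hx1e hθ2
  have hK : l * (c + 1) * (KK r κ θ : ℕ) ≤ 180000 * (c + 1) * (κ + 1) * D ^ 3 * (A * P) := by
    have h1 : ((KK r κ θ : ℕ) : ℝ) = 90000 * (r : ℝ) ^ 2 * (κ + 1) * (θ + 1) := by
      unfold KK; push_cast; ring
    rw [h1]
    calc l * (c + 1) * (90000 * (r : ℝ) ^ 2 * (κ + 1) * (θ + 1)) ≤
        (D * y) * (c + 1) * (90000 * (D * y) ^ 2 * (κ + 1) * (2 * A)) := by gcongr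
      _ = 180000 * (c + 1) * (κ + 1) * D ^ 3 * (A * y ^ 3) := by ring
      _ = _ := by rw [hyy]
  have hhalf : x ^ (1 - ε / 2) = A * P ^ 2 := by
    rw [hA, hPd, ← Real.rpow_natCast (x ^ (ε / 4)), ← Real.rpow_mul hx0.le, ← Real.rpow_add hx0]
    congr 1
    push_cast
    ring
  have hxx : x = A * P ^ 4 := by
    rw [hA, hPd, ← Real.rpow_natCast (x ^ (ε / 4)), ← Real.rpow_mul hx0.le, ← Real.rpow_add hx0]
    conv_lhs => rw [← Real.rpow_one x]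
    congr 1
    push_cast
    ring
  -- the power of two
  have hd : ((4 : ℝ) * 4 ^ (36 * r + 1)) ≤ 2 ^ 148 * P := by
    have h1 : ((4 : ℝ) * 4 ^ (36 * r + 1)) = (2 : ℝ) ^ ((72 : ℝ) * r + 4) := by
      have h4 : (4 : ℝ) = 2 ^ 2 := by norm_num
      rw [h4, ← pow_mul, ← pow_add, ← Real.rpow_natCast]
      congr 1
      push_cast
      ring
    have h2 : (2 : ℝ) ^ l = x := by
      rw [hl]; exact Real.rpow_logb (by norm_num) (by norm_num) hx0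
    rw [h1]
    calc (2 : ℝ) ^ ((72 : ℝ) * r + 4) ≤ (2 : ℝ) ^ (148 + l * (ε / 4)) := by
          apply Real.rpow_le_rpow_of_exponent_le (by norm_num)
          have : 0 ≤ l * ε := mul_nonneg hlogb0 hε.le
          nlinarith
      _ = (2 : ℝ) ^ (148 : ℝ) * ((2 : ℝ) ^ l) ^ (ε / 4) := by
          rw [Real.rpow_add (by norm_num), Real.rpow_mul (by norm_num)]
      _ = _ := by
          rw [h2, hPd]
          congr 1
          rw [← Real.rpow_natCast]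
          norm_num
  have hdpos : (0 : ℝ) < 4 * 4 ^ (36 * r + 1) := by positivity
  have hPpos : 0 < P := by linarith
  have hApos : 0 < A := by linarith
  have hquot : A * P ^ 3 / 2 ^ 148 ≤ x / (4 * 4 ^ (36 * r + 1)) := by
    rw [div_le_div_iff₀ (by positivity) hdpos]
    calc A * P ^ 3 * (4 * 4 ^ (36 * r + 1)) ≤ A * P ^ 3 * (2 ^ 148 * P) := by
          apply mul_le_mul_of_nonneg_left hd
          positivity
      _ = (A * P ^ 4) * 2 ^ 148 := by ring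
      _ = _ := by rw [← hxx]
  have hfloor : x / (4 * 4 ^ (36 * r + 1)) < ((m / 4 / 4 ^ (36 * r + 1) : ℕ) : ℝ) + 1 := by
    rw [Nat.div_div_eq_div_mul, div_lt_iff₀ hdpos, hx]
    have h1 : m < (m / (4 * 4 ^ (36 * r + 1)) + 1) * (4 * 4 ^ (36 * r + 1)) := by
      have := Nat.lt_div_mul_add (a := m) (b := 4 * 4 ^ (36 * r + 1)) (by positivity)
      rw [add_mul, one_mul]
      exact this
    exact_mod_cast h1
  have hmain : 180000 * (c + 1) * (κ + 1) * D ^ 3 * (A * P) + 2 + A * P ^ 2 + 1 ≤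
      A * P ^ 3 / 2 ^ 148 := by
    rw [le_div_iff₀ (by positivity)]
    obtain ⟨T, hT⟩ : ∃ T : ℝ, T = 180000 * (c + 1) * (κ + 1) * D ^ 3 := ⟨_, rfl⟩
    have hT0 : 0 ≤ T := by rw [hT]; positivity
    rw [← hT] at hW ⊢
    have hAP : 1 ≤ A * P ^ 2 := by
      have : 1 ≤ P ^ 2 := one_le_pow₀ hP1
      nlinarith
    have h1 : T * (A * P) ≤ T * (A * P ^ 2) := by
      apply mul_le_mul_of_nonneg_left _ hT0
      apply mul_le_mul_of_nonneg_left _ hApos.le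
      nlinarith
    calc (T * (A * P) + 2 + A * P ^ 2 + 1) * 2 ^ 148 ≤ ((T + 4) * (A * P ^ 2)) * 2 ^ 148 := by
          apply mul_le_mul_of_nonneg_right _ (by positivity)
          nlinarith
      _ = (A * P ^ 2) * W := by rw [hW]; ring
      _ ≤ (A * P ^ 2) * P := mul_le_mul_of_nonneg_left hP.le (by positivity)
      _ = _ := by ring
  rw [hhalf]
  linarith

/-- From the inequality between exponents to the one between powers. -/
theorem power {N q K μ c : ℕ} {E X : ℝ} (hN : 2 ≤ N) (hq : (q : ℝ) ≤ (N : ℝ) ^ c)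
    (h : Real.logb 2 N * (c + 1) * (K : ℕ) + 2 + E ≤ (μ : ℕ))
    (hX : X * 2 ^ μ ≤ 3 * ((max 2 q : ℕ) : ℝ) ^ K * 2 ^ N) :
    X ≤ (2 : ℝ) ^ ((N : ℝ) - E) := by
  have hN0 : (0 : ℝ) < N := by
    have : (2 : ℝ) ≤ N := by exact_mod_cast hN
    linarith
  have hNR : (2 : ℝ) ≤ N := by exact_mod_cast hN
  have h2 : (2 : ℝ) ^ (Real.logb 2 N) = N := Real.rpow_logb (by norm_num) (by norm_num) hN0
  have hm : ((max 2 q : ℕ) : ℝ) ≤ (2 : ℝ) ^ (Real.logb 2 N * (c + 1)) := by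
    have h3 : (2 : ℝ) ^ (Real.logb 2 N * (c + 1)) = (N : ℝ) ^ (c + 1) := by
      rw [Real.rpow_mul (by norm_num), h2, ← Real.rpow_natCast]
      push_cast
      rfl
    rw [h3]
    push_cast
    apply max_le
    · calc (2 : ℝ) ≤ N := hNR
        _ = (N : ℝ) ^ 1 := (pow_one _).symm
        _ ≤ (N : ℝ) ^ (c + 1) := pow_le_pow_right₀ (by linarith) (by omega)
    · calc (q : ℝ) ≤ (N : ℝ) ^ c := hq
        _ ≤ (N : ℝ) ^ (c + 1) := pow_le_pow_right₀ (by linarith) (by omega)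
  have hmK : ((max 2 q : ℕ) : ℝ) ^ K ≤ (2 : ℝ) ^ (Real.logb 2 N * (c + 1) * K) := by
    calc ((max 2 q : ℕ) : ℝ) ^ K ≤ ((2 : ℝ) ^ (Real.logb 2 N * (c + 1))) ^ K :=
          pow_le_pow_left₀ (by positivity) hm K
      _ = _ := by rw [← Real.rpow_natCast, ← Real.rpow_mul (by norm_num)]
  have h3 : 3 * ((max 2 q : ℕ) : ℝ) ^ K * 2 ^ N ≤ (2 : ℝ) ^ ((N : ℝ) - E) * 2 ^ μ := by
    calc 3 * ((max 2 q : ℕ) : ℝ) ^ K * 2 ^ N ≤
        (2 : ℝ) ^ (2 : ℝ) * (2 : ℝ) ^ (Real.logb 2 N * (c + 1) * K) * (2 : ℝ) ^ (N : ℝ) := by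
          rw [Real.rpow_natCast]
          apply mul_le_mul_of_nonneg_right _ (by positivity)
          apply mul_le_mul _ hmK (by positivity) (by positivity)
          norm_num
      _ = (2 : ℝ) ^ (2 + Real.logb 2 N * (c + 1) * K + N) := by
          rw [← Real.rpow_add (by norm_num), ← Real.rpow_add (by norm_num)]
      _ ≤ (2 : ℝ) ^ (((N : ℝ) - E) + μ) :=
          Real.rpow_le_rpow_of_exponent_le (by norm_num) (by linarith)
      _ = _ := by rw [Real.rpow_add (by norm_num), Real.rpow_natCast]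
  exact le_of_mul_le_mul_right (hX.trans h3) (by positivity)

/-- The number of reads. -/
theorem exists_r {N R : ℕ} {ε : ℝ} (hε : 0 < ε) (hN : 2 ≤ N)
    (hR : (R : ℝ) ≤ ε / 300 * (N * Real.logb 2 N)) :
    ∃ r : ℕ, 1 ≤ r ∧ R ≤ r * N ∧ (r : ℝ) ≤ ε / 300 * Real.logb 2 N + 2 := by
  have hNR : (2 : ℝ) ≤ N := by exact_mod_cast hN
  have h0 : 0 ≤ Real.logb 2 N := Real.logb_nonneg (by norm_num) (by linarith)
  have h1 : 0 ≤ ε / 300 * Real.logb 2 N := by positivity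
  refine ⟨⌈ε / 300 * Real.logb 2 N⌉₊ + 1, by omega, ?_, ?_⟩
  · have h2 : (R : ℝ) ≤ ((⌈ε / 300 * Real.logb 2 N⌉₊ + 1 : ℕ) : ℝ) * N := by
      calc (R : ℝ) ≤ (ε / 300 * Real.logb 2 N) * N := by linarith
        _ ≤ _ := by
            apply mul_le_mul_of_nonneg_right _ (by linarith)
            push_cast
            have := Nat.le_ceil (ε / 300 * Real.logb 2 N)
            linarith
    exact_mod_cast h2
  · push_cast
    have := Nat.ceil_lt_add_one h1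
    linarith

/-- **Asymptotic form.** -/
theorem main (c κ : ℕ) (ε : ℝ) (hε : 0 < ε) (hε1 : ε ≤ 1) : ∃ N₀ : ℕ, ∀ N ≥ N₀,
    ∀ (Z : Type) [Fintype Z], (Fintype.card Z : ℝ) ≤ (N : ℝ) ^ c →
    ∀ (C : WCirc (Fin N) Bool Z) (θ : ℕ), (θ : ℝ) ≤ (N : ℝ) ^ (1 - ε) → C.FanIn κ →
      C.TreewidthLE θ → (C.reads : ℝ) ≤ ε / 300 * (N * Real.logb 2 N) →
      (∀ s : Bool, (∀ z, C.Accepts z → (List.ofFn z ∈ L ↔ s = true)) →
        (Nat.card {z // C.Accepts z} : ℝ) ≤ (2 : ℝ) ^ ((N : ℝ) - (N : ℝ) ^ (1 - ε / 2))) ∧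
      (C.Unambiguous → |2 * (Nat.card {z // C.Accepts z ↔ List.ofFn z ∈ L} : ℝ) - 2 ^ N| ≤
        (2 : ℝ) ^ ((N : ℝ) - (N : ℝ) ^ (1 - ε / 2))) := by
  obtain ⟨N₀, hN₀, h⟩ := numeric c κ ε hε hε1
  refine ⟨N₀, fun N hN Z _ hZ C θ hθ hκ htw hR => ?_⟩
  have hN2 : 2 ≤ N := hN₀.trans hN
  obtain ⟨r, hr1, hrR, hr⟩ := exists_r hε hN2 hR
  have hnum := h N hN r θ hr hθ
  refine ⟨fun s hs => ?_, fun hU => ?_⟩
  · have h1 := nondet C hr1 hκ htw hrR (le_max_left 2 (Fintype.card Z))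
      (le_max_right 2 (Fintype.card Z)) s hs
    refine power hN2 hZ hnum ?_
    have h2 : (Nat.card {z // C.Accepts z} : ℝ) * 2 ^ (N / 4 / 4 ^ (36 * r + 1)) ≤
        ((max 2 (Fintype.card Z) : ℕ) : ℝ) ^ KK r κ θ * 2 ^ N := by exact_mod_cast h1
    refine h2.trans ?_
    have : 0 ≤ ((max 2 (Fintype.card Z) : ℕ) : ℝ) ^ KK r κ θ * 2 ^ N := by positivity
    linarith
  · have h1 := unamb C hr1 hκ htw hrR (le_max_left 2 (Fintype.card Z))
      (le_max_right 2 (Fintype.card Z)) hU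
    exact power hN2 hZ hnum h1

end Pool.Agent.J6H29.TW
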